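import Pool.Agent.helper34.EC9.EQ
import Pool.Agent.helper29.IT.GCT

/-! For EVERY case `T` of Q1, all but `ε M` of any `M ≥ M₀(ε)` consecutive exponents `m` (`M₀` absolute) have one of `T^m, T^(2m), T^(3m)` (or `T^(4m)`) true. -/

set_option autoImplicit false

namespace Pool.Agent.EC9

open Finset Pool.Agent.AT Pool.Agent.IT

open Classical in
theorem E2_k (hGCT : GCT_stmt) (k : Fin 4 → ℕ) (hk : StrictMono k) (hk12 : ∀ i j : Fin 4, i < j → (k j - k i) ∣ 12) (C δ ε : ℝ) (hC : 0 < C)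
    (hδ : 0 < δ) (hε : 0 < ε) : ∃ M₀ : ℕ, ∀ (τ : Prop) (P : ℕ → Prop), QE C δ τ P →
    (τ ∨ ∀ m : ℤ, ∃ r : ℤ, ∀ i, ¬ (3 : ℤ) ∣ (k i : ℤ) * m - r) → ∀ M : ℕ, M₀ ≤ M → ∀ u : ℕ,
      (#{m ∈ Ioc u (u + M) | ∀ i j : Fin 4, i < j → ¬ P ((k j - k i) * m)} : ℝ) ≤ ε * M := by
  obtain ⟨δ', C', hδ', hC', key⟩ := hGCT (fun _ => 1) (fun i => (k i : ℤ)) (fun i j => -(((12 / (k j - k i) : ℕ) : ℤ))) 12 (fun _ => one_pos) (by norm_num)
    (by
      intro i j hij
      have h1 := hk hij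
      obtain ⟨d, hd⟩ := hk12 i j hij
      have h2 : 0 < k j - k i := by omega
      have h3 : 12 / (k j - k i) = d := by
        rw [hd]
        exact Nat.mul_div_cancel_left d h2
      rw [h3]
      have h4 : (((k j - k i : ℕ)) : ℤ) = (k j : ℤ) - k i := by omega
      have h5 : ((k j : ℤ) - k i) * d = 12 := by
        rw [← h4]
        exact_mod_cast hd.symm
      push_cast
      linear_combination h5) (ε / 2) (by positivity)
  obtain ⟨L₀, hL₀⟩ : ∃ L₀ : ℕ, ∀ L : ℕ, L₀ ≤ L → 81 * C * (C' : ℝ) ^ 4 * (L : ℝ) ^ (-δ) < δ' := by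
    have h3 : Filter.Tendsto (fun x : ℝ => 81 * C * (C' : ℝ) ^ 4 * x ^ (-δ)) Filter.atTop (nhds (81 * C * (C' : ℝ) ^ 4 * 0)) :=
      (tendsto_rpow_neg_atTop hδ).const_mul _
    rw [mul_zero] at h3
    have h4 := h3.eventually (gt_mem_nhds hδ')
    obtain ⟨x₀, hx₀⟩ := Filter.eventually_atTop.mp h4
    refine ⟨⌈x₀⌉₊, fun L hL => hx₀ L ?_⟩
    exact le_trans (Nat.le_ceil _) (by exact_mod_cast hL)
  refine ⟨12 * L₀ + 12, fun τ P hP hτ M hM u => ?_⟩
  by_contra hcon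
  push Not at hcon
  set S : Finset ℕ := {m ∈ Ioc u (u + M) | ∀ i j : Fin 4, i < j → ¬ P ((k j - k i) * m)} with hS
  set L : ℕ := M / 12 + 1 with hL
  -- a class modulo 12
  obtain ⟨ρ, hρ, hρS⟩ : ∃ ρ ∈ range 12, #S ≤ 12 * #({m ∈ S | m % 12 = ρ}) := by
    by_contra hno
    push Not at hno
    have h1 : #S = ∑ ρ ∈ range 12, #({m ∈ S | m % 12 = ρ}) :=
      Finset.card_eq_sum_card_fiberwise (fun m _ => by
        rw [Finset.mem_coe, Finset.mem_range]
        exact Nat.mod_lt _ (by norm_num))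
    have h2 : ∑ ρ ∈ range 12, 12 * #({m ∈ S | m % 12 = ρ}) < ∑ _ρ ∈ range 12, #S :=
      Finset.sum_lt_sum_of_nonempty ⟨0, by simp⟩ fun ρ hρ => hno ρ hρ
    rw [← Finset.mul_sum, ← h1, Finset.sum_const, Finset.card_range, smul_eq_mul] at h2
    omega
  rw [Finset.mem_range] at hρ
  set m₀ : ℕ := u + 1 + (ρ + 12 * (u + 1) - (u + 1)) % 12 with hm₀
  have hm₀ρ : m₀ % 12 = ρ := by omega
  have hm₀u : u < m₀ := by omega
  obtain ⟨B, hB⟩ : ∃ B : ℤ → Prop, ∀ t, B t ↔ (0 < (m₀ : ℤ) + t ∧ ∀ i j : Fin 4, i < j → ¬ P ((k j - k i) * ((m₀ : ℤ) + t).toNat)) :=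
    ⟨_, fun _ => Iff.rfl⟩
  obtain ⟨Y, hY⟩ : ∃ Y : Finset ℕ, ∀ y, y ∈ Y ↔ y < L ∧ B (12 * (y : ℤ)) :=
    ⟨{y ∈ range L | B (12 * (y : ℤ))}, fun y => by rw [Finset.mem_filter, Finset.mem_range]⟩
  have hSY : #({m ∈ S | m % 12 = ρ}) ≤ #Y := by
    refine Finset.card_le_card_of_injOn (fun m => (m - m₀) / 12) ?_ ?_
    · intro m hm
      rw [Finset.mem_coe, Finset.mem_filter, hS, Finset.mem_filter, Finset.mem_Ioc] at hm
      obtain ⟨⟨⟨h1, h2⟩, h3⟩, h4⟩ := hm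
      have h5 : m₀ ≤ m := by omega
      have h6 : m₀ + 12 * ((m - m₀) / 12) = m := by omega
      rw [Finset.mem_coe, hY, hB]
      beta_reduce
      refine ⟨by omega, by omega, ?_⟩
      have h7 : ((m₀ : ℤ) + 12 * (((m - m₀) / 12 : ℕ) : ℤ)).toNat = m := by omega
      rw [h7]
      exact h3
    · intro m hm m' hm' heq
      rw [Finset.mem_coe, Finset.mem_filter, hS, Finset.mem_filter, Finset.mem_Ioc] at hm hm'
      obtain ⟨⟨⟨h1, h2⟩, h3⟩, h4⟩ := hm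
      obtain ⟨⟨⟨h1', h2'⟩, h3'⟩, h4'⟩ := hm'
      simp only at heq
      omega
  have hYc : ε / 2 * (L : ℝ) ≤ (#Y : ℝ) := by
    have h1 : (#S : ℝ) ≤ 12 * #Y := by
      have : #S ≤ 12 * #Y := by omega
      exact_mod_cast this
    have h2 : (L : ℝ) ≤ M / 12 + 1 := by
      rw [hL]
      push_cast
      have := @Nat.cast_div_le ℝ _ _ _ M 12
      push_cast at this
      linarith
    have h3 : (12 : ℝ) ≤ M := by
      have : 12 ≤ M := by omega
      exact_mod_cast this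
    have h4 : ε * (M : ℝ) < #S := hcon
    nlinarith
  have hL0 : L₀ ≤ L := by omega
  have hL1 : 1 ≤ L := by omega
  have hk2 := key L B hL1 (by
    rw [GCT_card L B 12 Y hY]
    exact hYc)
  -- the exponents
  obtain ⟨ψ, hψ⟩ : ∃ ψ : Fin 4 → ℤ → ℕ, ∀ i x, ψ i x = ((k i : ℤ) * m₀ + 12 * (x + (C' * L : ℕ))).toNat := ⟨_, fun _ _ => rfl⟩
  have hψz : ∀ i, ∀ x ∈ Icc (-((C' * L : ℕ) : ℤ)) ((C' * L : ℕ) : ℤ), ((ψ i x : ℕ) : ℤ) = (k i : ℤ) * m₀ + 12 * (x + (C' * L : ℕ)) := by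
    intro i x hx
    rw [Finset.mem_Icc] at hx
    rw [hψ, Int.toNat_of_nonneg]
    have h1 : (0 : ℤ) ≤ (k i : ℤ) * m₀ := by positivity
    linarith [hx.1]
  have hψinj : ∀ i, Set.InjOn (ψ i) (Icc (-((C' * L : ℕ) : ℤ)) ((C' * L : ℕ) : ℤ) : Finset ℤ) := by
    intro i x hx y hy hxy
    have h1 := hψz i x hx
    have h2 := hψz i y hy
    rw [hxy] at h1
    linarith
  obtain ⟨G, hG⟩ : ∃ G : Fin 4 → Finset ℕ, ∀ i, G i = (Icc (-((C' * L : ℕ) : ℤ)) ((C' * L : ℕ) : ℤ)).image (ψ i) := ⟨_, fun _ => rfl⟩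
  have hFc : ∀ i, #(G i) = 2 * (C' * L) + 1 := by
    intro i
    rw [hG, Finset.card_image_of_injOn (hψinj i), Int.card_Icc]
    omega
  have hq := hP G (2 * (C' * L) + 1) (by omega) (fun i => (hFc i).ge)
  simp only [hFc] at hq
  have hle : #({x ∈ Fintype.piFinset (fun _ : Fin 4 => Icc (-((C' * L : ℕ) : ℤ)) ((C' * L : ℕ) : ℤ)) |
      ∀ i j : Fin 4, i < j → B (-(((12 / (k j - k i) : ℕ) : ℤ)) * (((1 : ℕ) : ℤ) * x i - ((1 : ℕ) : ℤ) * x j))}) ≤
      #{e ∈ Fintype.piFinset G |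
        (τ ∨ ∃ r : ℤ, ∀ i, ¬ (3 : ℤ) ∣ (e i : ℤ) - r) ∧ ∀ i j : Fin 4, e i < e j → ¬ P (e j - e i)} := by
    refine Finset.card_le_card_of_injOn (fun x i => ψ i (x i)) ?_ ?_
    · intro x hx
      rw [Finset.mem_coe, Finset.mem_filter, Fintype.mem_piFinset] at hx
      obtain ⟨h1, h2⟩ := hx
      rw [Finset.mem_coe, Finset.mem_filter, Fintype.mem_piFinset]
      refine ⟨fun i => by rw [hG]; exact Finset.mem_image_of_mem _ (h1 i), ?_, ?_⟩
      · rcases hτ with hτ | hτ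
        · exact Or.inl hτ
        · right
          obtain ⟨r, hr⟩ := hτ m₀
          refine ⟨r, fun i h3 => hr i ?_⟩
          change (3 : ℤ) ∣ ((ψ i (x i) : ℕ) : ℤ) - r at h3
          rw [hψz i (x i) (h1 i)] at h3
          have h4 : (k i : ℤ) * m₀ - r = ((k i : ℤ) * m₀ + 12 * (x i + (C' * L : ℕ)) - r) - 3 * (4 * (x i + (C' * L : ℕ))) := by ring
          rw [h4]
          exact dvd_sub h3 (dvd_mul_right _ _)
      · have hord : ∀ i j : Fin 4, i < j → ψ i (x i) < ψ j (x j) ∧ ¬ P (ψ j (x j) - ψ i (x i)) := by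
          intro i j hij
          have h3 := (hB _).mp (h2 i j hij)
          obtain ⟨h4, h5⟩ := h3
          obtain ⟨d, hd⟩ := hk12 i j hij
          have hkk := hk hij
          have h6 : 0 < k j - k i := by omega
          have h7 : 12 / (k j - k i) = d := by
            rw [hd]
            exact Nat.mul_div_cancel_left d h6
          rw [h7] at h4
          have h5' := h5 i j hij
          rw [h7] at h5'
          have h8 : (((k j - k i : ℕ)) : ℤ) = (k j : ℤ) - k i := by omega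
          have h9 : (((k j - k i : ℕ)) : ℤ) * d = 12 := by exact_mod_cast hd.symm
          set w : ℤ := (m₀ : ℤ) + -(d : ℤ) * (((1 : ℕ) : ℤ) * x i - ((1 : ℕ) : ℤ) * x j) with hw
          have h10 : ((ψ j (x j) : ℕ) : ℤ) - ((ψ i (x i) : ℕ) : ℤ) = ((k j - k i : ℕ) : ℤ) * w := by
            rw [hψz i (x i) (h1 i), hψz j (x j) (h1 j), hw]
            push_cast
            linear_combination (-(x j : ℤ) + x i) * h9 - (m₀ : ℤ) * h8
          have h11 : (0 : ℤ) < ((k j - k i : ℕ) : ℤ) * w := mul_pos (by exact_mod_cast h6) h4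
          refine ⟨by omega, ?_⟩
          have h12 : ψ j (x j) - ψ i (x i) = (k j - k i) * w.toNat := by
            have h13 : ((w.toNat : ℕ) : ℤ) = w := Int.toNat_of_nonneg h4.le
            have h14 : (((ψ j (x j) - ψ i (x i) : ℕ)) : ℤ) = (((k j - k i) * w.toNat : ℕ) : ℤ) := by
              rw [Nat.cast_sub (by omega), h10]
              push_cast [h13]
              rfl
            exact_mod_cast h14
          rw [h12]
          exact h5'
        intro i j hij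
        rcases lt_trichotomy i j with h3 | h3 | h3
        · exact (hord i j h3).2
        · rw [h3] at hij
          exact absurd hij (lt_irrefl _)
        · exact absurd hij (not_lt.mpr (hord j i h3).1.le)
    · intro x hx y hy hxy
      rw [Finset.mem_coe, Finset.mem_filter, Fintype.mem_piFinset] at hx hy
      funext i
      exact hψinj i (hx.1 i) (hy.1 i) (congrFun hxy i)
  have hfin := le_trans hk2 (le_trans (Nat.cast_le.mpr hle) hq)
  rw [Finset.prod_const, Finset.card_univ, Fintype.card_fin] at hfin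
  have hL1' : (1 : ℝ) ≤ L := by exact_mod_cast hL1
  have hC1' : (1 : ℝ) ≤ C' := by exact_mod_cast hC'
  have hCL : (1 : ℝ) ≤ C' * L := by nlinarith
  have e1 : ((2 * (C' * L) + 1 : ℕ) : ℝ) ≤ 3 * (C' * L) := by
    push_cast
    linarith
  have e2 : ((2 * (C' * L) + 1 : ℕ) : ℝ) ^ 4 ≤ (3 * (C' * L)) ^ 4 := pow_le_pow_left₀ (by positivity) e1 4
  have e3 : (((2 * (C' * L) + 1 : ℕ) : ℝ)) ^ (-δ) ≤ (L : ℝ) ^ (-δ) := by
    refine Real.rpow_le_rpow_of_nonpos (by linarith) ?_ (by linarith)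
    push_cast
    nlinarith
  have e4 := hL₀ L hL0
  have e5 : δ' * (L : ℝ) ^ 4 ≤ C * (3 * (C' * L)) ^ 4 * (L : ℝ) ^ (-δ) := by
    refine le_trans hfin ?_
    have h1 : (0 : ℝ) ≤ (L : ℝ) ^ (-δ) := by positivity
    have h2 : C * ((2 * (C' * L) + 1 : ℕ) : ℝ) ^ 4 ≤ C * (3 * (C' * L)) ^ 4 := mul_le_mul_of_nonneg_left e2 hC.le
    exact mul_le_mul h2 e3 (by positivity) (by positivity)
  have e6 : C * (3 * (C' * (L : ℝ))) ^ 4 * (L : ℝ) ^ (-δ) = (81 * C * (C' : ℝ) ^ 4 * (L : ℝ) ^ (-δ)) * (L : ℝ) ^ 4 := by ring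
  rw [e6] at e5
  have e7 : (0 : ℝ) < (L : ℝ) ^ 4 := by positivity
  have e8 := mul_lt_mul_of_pos_right e4 e7
  linarith

theorem E2_m1 : StrictMono (![0, 1, 2, 3] : Fin 4 → ℕ) := by
  intro i j hij
  fin_cases i <;> fin_cases j <;> simp_all

theorem E2_m2 : StrictMono (![0, 1, 3, 4] : Fin 4 → ℕ) := by
  intro i j hij
  fin_cases i <;> fin_cases j <;> simp_all

theorem E2_loc (m : ℤ) : ∃ r : ℤ, ∀ i, ¬ (3 : ℤ) ∣ ((![0, 1, 3, 4] : Fin 4 → ℕ) i : ℤ) * m - r := by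
  by_cases h : (3 : ℤ) ∣ m
  · refine ⟨1, fun i => ?_⟩
    fin_cases i <;> simp <;> omega
  · refine ⟨2 * m, fun i => ?_⟩
    fin_cases i <;> simp <;> omega

open Classical in
/-- **E2.** For every `ε` there is an absolute `M₀` such that for EVERY case `(a, b, c)` of Q1 all but `ε M` of any `M ≥ M₀` consecutive exponents `m` have one of
`T^m, T^(2m), T^(3m)` true, or, if `T` is a translation modulo 3, one of `T^m, T^(2m), T^(3m), T^(4m)`. -/
theorem E2 (hGCT : GCT_stmt) (hQ : QPc) (hORB : ORB_stmt) (hADO : ADO_stmt) (hPRI : PRI_stmt) (ε : ℝ) (hε : 0 < ε) :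
    ∃ M₀ : ℕ, ∀ (a b : ℕ) (c : ℤ), Ad a b c → ∀ M : ℕ, M₀ ≤ M → ∀ u : ℕ,
      (#{m ∈ Ioc u (u + M) | ¬ (It a b c m ∨ It a b c (2 * m) ∨ It a b c (3 * m) ∨
        (((3 : ℤ) ∣ (a : ℤ) - b ∧ ¬ (3 : ℤ) ∣ a * b * c) ∧ It a b c (4 * m)))} : ℝ) ≤ ε * M := by
  obtain ⟨C, δ, hC, hδ, -, H⟩ := EQ hQ hORB hADO hPRI
  obtain ⟨M₁, h1⟩ := E2_k hGCT ![0, 1, 2, 3] E2_m1 (by
    intro i j hij
    fin_cases i <;> fin_cases j <;> first | exact absurd hij (by decide) | decide) C δ ε hC hδ hε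
  obtain ⟨M₂, h2⟩ := E2_k hGCT ![0, 1, 3, 4] E2_m2 (by
    intro i j hij
    fin_cases i <;> fin_cases j <;> first | exact absurd hij (by decide) | decide) C δ ε hC hδ hε
  refine ⟨max M₁ M₂, fun a b c hc M hM u => ?_⟩
  have hP := H a b c hc
  by_cases hf : Fr a b c
  · refine le_trans (Nat.cast_le.mpr (Finset.card_le_card ?_)) (h1 _ _ hP (Or.inl hf) M ((le_max_left _ _).trans hM) u)
    intro m hm
    rw [Finset.mem_filter] at hm ⊢
    obtain ⟨hm1, hm2⟩ := hm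
    push Not at hm2
    obtain ⟨n1, n2, n3, -⟩ := hm2
    have n1' : ¬ It a b c (1 * m) := by rwa [one_mul]
    refine ⟨hm1, fun i j hij => ?_⟩
    fin_cases i <;> fin_cases j <;> first | exact absurd hij (by decide) | exact n1' | exact n2 | exact n3
  · refine le_trans (Nat.cast_le.mpr (Finset.card_le_card ?_)) (h2 _ _ hP (Or.inr E2_loc) M ((le_max_right _ _).trans hM) u)
    intro m hm
    rw [Finset.mem_filter] at hm ⊢
    obtain ⟨hm1, hm2⟩ := hm
    unfold Fr at hf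
    push Not at hf
    push Not at hm2
    obtain ⟨n1, n2, n3, n4⟩ := hm2
    have n1' : ¬ It a b c (1 * m) := by rwa [one_mul]
    have n4' : ¬ It a b c (4 * m) := n4 ⟨hf.2, hf.1⟩
    refine ⟨hm1, fun i j hij => ?_⟩
    fin_cases i <;> fin_cases j <;> first | exact absurd hij (by decide) | exact n1' | exact n2 | exact n3 | exact n4'

end Pool.Agent.EC9
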