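import Pool.Agent.helper34.EC9.EQ
import Pool.Agent.helper71.AT.MM
import Pool.Agent.helper53.AT.THP

/-! For EVERY case `T` of Q1 and `M ≥ M₀` (absolute) at least `M / 10` of `T, T², ..., T^M` are true cases. -/

set_option autoImplicit false

namespace Pool.Agent.EC9

open Finset Pool.Agent.AT Pool.Agent.IT

open Classical in
/-- the ordered pairs of exponents with a true difference: at least a third -/
theorem E3_pairs (hMM : MM_stmt) (C δ : ℝ) (hδ1 : δ ≤ 1) (τ : Prop) (P : ℕ → Prop) (hP : QE C δ τ P) (V : Finset ℕ) (hV : 1 ≤ #V)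
    (hloc : τ ∨ ∃ r : ℤ, ∀ x ∈ V, ¬ (3 : ℤ) ∣ (x : ℤ) - r) :
    1 / 3 * (#V : ℝ) ^ 2 - (3 / 2 * C + 1) * (#V : ℝ) ^ (2 - δ) ≤
      2 * (#{p ∈ V ×ˢ V | p.1 < p.2 ∧ P (p.2 - p.1)} : ℝ) := by
  obtain ⟨R, hR⟩ : ∃ R : ℕ → ℕ → Prop, ∀ x y, R x y ↔ ((x < y ∧ ¬ P (y - x)) ∨ (y < x ∧ ¬ P (x - y))) := ⟨_, fun _ _ => Iff.rfl⟩
  have hn0 : (0 : ℝ) < (#V : ℝ) := by exact_mod_cast hV
  have hn1 : (1 : ℝ) ≤ (#V : ℝ) := by exact_mod_cast hV
  have hMM' := hMM V R (fun x y h => (hR _ _).mpr ((hR _ _).mp h).symm) (fun x h => by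
    rcases (hR _ _).mp h with h1 | h1
    · exact lt_irrefl _ h1.1
    · exact lt_irrefl _ h1.1)
  have hN4 : (#{t ∈ V ×ˢ V ×ˢ V ×ˢ V | R t.1 t.2.1 ∧ R t.1 t.2.2.1 ∧ R t.1 t.2.2.2 ∧ R t.2.1 t.2.2.1 ∧ R t.2.1 t.2.2.2 ∧
      R t.2.2.1 t.2.2.2} : ℝ) ≤ C * (#V : ℝ) ^ 4 * (#V : ℝ) ^ (-δ) := by
    have e2 := hP (fun _ => V) (#V) hV (fun _ => le_refl _)
    have e3 : ∏ _i : Fin 4, ((#V : ℕ) : ℝ) = (#V : ℝ) ^ 4 := by
      rw [Finset.prod_const, Finset.card_univ, Fintype.card_fin]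
    rw [e3] at e2
    refine le_trans (Nat.cast_le.mpr ?_) e2
    refine Finset.card_le_card_of_injOn (fun t => ![t.1, t.2.1, t.2.2.1, t.2.2.2]) ?_ ?_
    · intro t ht
      have ht' := Finset.mem_filter.mp (Finset.mem_coe.mp ht)
      obtain ⟨h1, r1, r2, r3, r4, r5, r6⟩ := ht'
      rw [Finset.mem_product, Finset.mem_product, Finset.mem_product] at h1
      obtain ⟨a1, a2, a3, a4⟩ := h1
      apply Finset.mem_coe.mpr
      rw [Finset.mem_filter, Fintype.mem_piFinset]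
      refine ⟨?_, ?_, ?_⟩
      · intro i
        fin_cases i
        · exact a1
        · exact a2
        · exact a3
        · exact a4
      · rcases hloc with h | ⟨r, hr⟩
        · exact Or.inl h
        · refine Or.inr ⟨r, fun i => ?_⟩
          fin_cases i
          · exact hr _ a1
          · exact hr _ a2
          · exact hr _ a3
          · exact hr _ a4
      · have key : ∀ x y, R x y → x < y → ¬ P (y - x) := by
          intro x y h hxy
          rcases (hR _ _).mp h with h1 | h1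
          · exact h1.2
          · exact absurd h1.1 (not_lt.mpr hxy.le)
        have key' : ∀ x y, R x y → y < x → ¬ P (x - y) := by
          intro x y h hxy
          rcases (hR _ _).mp h with h1 | h1
          · exact absurd h1.1 (not_lt.mpr hxy.le)
          · exact h1.2
        intro i j hij
        fin_cases i <;> fin_cases j
        · exact absurd hij (lt_irrefl _)
        · exact key _ _ r1 hij
        · exact key _ _ r2 hij
        · exact key _ _ r3 hij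
        · exact key' _ _ r1 hij
        · exact absurd hij (lt_irrefl _)
        · exact key _ _ r4 hij
        · exact key _ _ r5 hij
        · exact key' _ _ r2 hij
        · exact key' _ _ r4 hij
        · exact absurd hij (lt_irrefl _)
        · exact key _ _ r6 hij
        · exact key' _ _ r3 hij
        · exact key' _ _ r5 hij
        · exact key' _ _ r6 hij
        · exact absurd hij (lt_irrefl _)
    · intro t _ t' _ h
      have h0 := congrFun h 0
      have h1 := congrFun h 1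
      have h2 := congrFun h 2
      have h3 := congrFun h 3
      simp only [Matrix.cons_val_zero, Matrix.cons_val_one, Matrix.cons_val] at h0 h1 h2 h3
      exact Prod.ext h0 (Prod.ext h1 (Prod.ext h2 h3))
  have hsplit : (#V : ℝ) ^ 2 ≤ #{p ∈ V ×ˢ V | R p.1 p.2} + (#V : ℝ) + 2 * #{p ∈ V ×ˢ V | p.1 < p.2 ∧ P (p.2 - p.1)} := by
    have e0 : #{p ∈ V ×ˢ V | p.2 < p.1 ∧ P (p.1 - p.2)} ≤ #{p ∈ V ×ˢ V | p.1 < p.2 ∧ P (p.2 - p.1)} := by
      refine Finset.card_le_card_of_injOn Prod.swap ?_ Prod.swap_injective.injOn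
      intro p hp
      rw [Finset.mem_coe, Finset.mem_filter, Finset.mem_product] at hp ⊢
      exact ⟨⟨hp.1.2, hp.1.1⟩, hp.2⟩
    have e1 : #(V ×ˢ V) ≤ #{p ∈ V ×ˢ V | R p.1 p.2} + #V + (#{p ∈ V ×ˢ V | p.1 < p.2 ∧ P (p.2 - p.1)} + #{p ∈ V ×ˢ V | p.2 < p.1 ∧ P (p.1 - p.2)}) := by
      have e2 : V ×ˢ V ⊆ ({p ∈ V ×ˢ V | R p.1 p.2} ∪ V.image (fun x => (x, x))) ∪
          ({p ∈ V ×ˢ V | p.1 < p.2 ∧ P (p.2 - p.1)} ∪ {p ∈ V ×ˢ V | p.2 < p.1 ∧ P (p.1 - p.2)}) := by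
        intro p hp
        rw [Finset.mem_union, Finset.mem_union, Finset.mem_union, Finset.mem_filter, Finset.mem_filter, Finset.mem_filter, Finset.mem_image]
        rcases lt_trichotomy p.1 p.2 with h1 | h1 | h1
        · by_cases h2 : P (p.2 - p.1)
          · exact Or.inr (Or.inl ⟨hp, h1, h2⟩)
          · exact Or.inl (Or.inl ⟨hp, (hR _ _).mpr (Or.inl ⟨h1, h2⟩)⟩)
        · exact Or.inl (Or.inr ⟨p.1, (Finset.mem_product.mp hp).1, Prod.ext rfl h1⟩)
        · by_cases h2 : P (p.1 - p.2)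
          · exact Or.inr (Or.inr ⟨hp, h1, h2⟩)
          · exact Or.inl (Or.inl ⟨hp, (hR _ _).mpr (Or.inr ⟨h1, h2⟩)⟩)
      refine (Finset.card_le_card e2).trans ((Finset.card_union_le _ _).trans ?_)
      exact Nat.add_le_add ((Finset.card_union_le _ _).trans (Nat.add_le_add_left Finset.card_image_le _)) (Finset.card_union_le _ _)
    rw [Finset.card_product] at e1
    have e3 : ((#V * #V : ℕ) : ℝ) ≤ ((#{p ∈ V ×ˢ V | R p.1 p.2} + #V + 2 * #{p ∈ V ×ˢ V | p.1 < p.2 ∧ P (p.2 - p.1)} : ℕ) : ℝ) := by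
      exact_mod_cast (by omega)
    push_cast at e3
    nlinarith
  have hpow : (#V : ℝ) ^ 4 * (#V : ℝ) ^ (-δ) = (#V : ℝ) ^ 2 * (#V : ℝ) ^ (2 - δ) := by
    have e1 : (#V : ℝ) ^ (2 - δ) = (#V : ℝ) ^ 2 * (#V : ℝ) ^ (-δ) := by
      rw [sub_eq_add_neg, Real.rpow_add hn0, Real.rpow_two]
    rw [e1]
    ring
  have hN2 : (#{p ∈ V ×ˢ V | R p.1 p.2} : ℝ) ≤ 2 / 3 * (#V : ℝ) ^ 2 + 3 / 2 * C * (#V : ℝ) ^ (2 - δ) := by
    have e1 : (#V : ℝ) ^ 2 * (#{p ∈ V ×ˢ V | R p.1 p.2} : ℝ) ≤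
        (#V : ℝ) ^ 2 * (2 / 3 * (#V : ℝ) ^ 2 + 3 / 2 * C * (#V : ℝ) ^ (2 - δ)) := by
      refine hMM'.trans ?_
      have e2 := mul_le_mul_of_nonneg_left hN4 (by norm_num : (0 : ℝ) ≤ 3 / 2)
      have e3 : 3 / 2 * (C * (#V : ℝ) ^ 4 * (#V : ℝ) ^ (-δ)) = 3 / 2 * C * ((#V : ℝ) ^ 2 * (#V : ℝ) ^ (2 - δ)) := by
        rw [← hpow]
        ring
      rw [e3] at e2
      nlinarith
    exact le_of_mul_le_mul_left e1 (by positivity)
  have hnle : (#V : ℝ) ≤ (#V : ℝ) ^ (2 - δ) := by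
    have e1 : (#V : ℝ) ^ (1 : ℝ) ≤ (#V : ℝ) ^ (2 - δ) := Real.rpow_le_rpow_of_exponent_le hn1 (by linarith)
    rwa [Real.rpow_one] at e1
  linarith

theorem E3_card (M : ℕ) : 2 * M ≤ 3 * #({e ∈ range M | ¬ e % 3 = 2}) := by
  induction M using Nat.strong_induction_on with
  | _ M ih =>
    match M, ih with
    | 0, _ => simp
    | 1, _ => decide
    | 2, _ => decide
    | M + 3, ih =>
      have h1 := ih M (by omega)
      have h2 : #({e ∈ range M | ¬ e % 3 = 2}) + 2 ≤ #({e ∈ range (M + 3) | ¬ e % 3 = 2}) := by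
        rw [Finset.range_add_one, Finset.range_add_one, Finset.range_add_one, Finset.filter_insert, Finset.filter_insert, Finset.filter_insert]
        have h3 : M % 3 = 0 ∨ M % 3 = 1 ∨ M % 3 = 2 := by omega
        have hM : M ∉ ({e ∈ range M | ¬ e % 3 = 2} : Finset ℕ) := by simp
        have hM1 : M + 1 ∉ ({e ∈ range M | ¬ e % 3 = 2} : Finset ℕ) := by simp
        have hM2 : M + 2 ∉ ({e ∈ range M | ¬ e % 3 = 2} : Finset ℕ) := by simp
        rcases h3 with h3 | h3 | h3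
        · rw [if_neg (by omega), if_pos (by omega), if_pos (by omega), Finset.card_insert_of_notMem, Finset.card_insert_of_notMem hM]
          simp
        · rw [if_pos (by omega), if_neg (by omega), if_pos (by omega), Finset.card_insert_of_notMem, Finset.card_insert_of_notMem hM]
          simp
        · rw [if_pos (by omega), if_pos (by omega), if_neg (by omega), Finset.card_insert_of_notMem, Finset.card_insert_of_notMem hM1]
          simp
      omega

open Classical in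
/-- **E3.** There is an absolute `M₀` such that for EVERY case `T` of Q1 and `M ≥ M₀` at least `M / 10` of `T, T², ..., T^M` are true. -/
theorem E3 (hMM : MM_stmt) (hQ : QPc) (hORB : ORB_stmt) (hADO : ADO_stmt) (hPRI : PRI_stmt) :
    ∃ M₀ : ℕ, ∀ (a b : ℕ) (c : ℤ), Ad a b c → ∀ M : ℕ, M₀ ≤ M → (M : ℝ) / 10 ≤ #{m ∈ Ioc 0 M | It a b c m} := by
  obtain ⟨C, δ, hC, hδ, hδ1, H⟩ := EQ hQ hORB hADO hPRI
  obtain ⟨M₁, hM₁⟩ : ∃ M₁ : ℕ, ∀ M : ℕ, M₁ ≤ M → (3 / 2 * C + 1) * (M : ℝ) ^ (-δ) < 1 / 45 := by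
    have h3 : Filter.Tendsto (fun x : ℝ => (3 / 2 * C + 1) * x ^ (-δ)) Filter.atTop (nhds ((3 / 2 * C + 1) * 0)) :=
      (tendsto_rpow_neg_atTop hδ).const_mul _
    rw [mul_zero] at h3
    have h4 := h3.eventually (gt_mem_nhds (show (0 : ℝ) < 1 / 45 by norm_num))
    obtain ⟨x₀, hx₀⟩ := Filter.eventually_atTop.mp h4
    refine ⟨⌈x₀⌉₊, fun M hM => hx₀ M ?_⟩
    exact le_trans (Nat.le_ceil _) (by exact_mod_cast hM)
  refine ⟨max M₁ 2, fun a b c hc M hM => ?_⟩
  have hM1 : M₁ ≤ M := (le_max_left _ _).trans hM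
  have hM2 : 2 ≤ M := (le_max_right _ _).trans hM
  obtain ⟨V, hV⟩ : ∃ V : Finset ℕ, V = {e ∈ range M | ¬ e % 3 = 2} := ⟨_, rfl⟩
  have hVc : 2 * M ≤ 3 * #V := by
    rw [hV]
    exact E3_card M
  have hVM : #V ≤ M := by
    rw [hV]
    exact (Finset.card_filter_le _ _).trans (by rw [Finset.card_range])
  have h1 := E3_pairs hMM C δ hδ1 _ _ (H a b c hc) V (by omega) (Or.inr ⟨2, fun x hx h => by
    rw [hV, Finset.mem_filter] at hx
    omega⟩)
  have h2 : #{p ∈ V ×ˢ V | p.1 < p.2 ∧ It a b c (p.2 - p.1)} ≤ #{m ∈ Ioc 0 M | It a b c m} * #V := by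
    rw [← Finset.card_product]
    refine Finset.card_le_card_of_injOn (fun p => (p.2 - p.1, p.1)) ?_ ?_
    · intro p hp
      rw [Finset.mem_coe, Finset.mem_filter, Finset.mem_product] at hp
      obtain ⟨⟨h3, h4⟩, h5, h6⟩ := hp
      have h4' := h4
      rw [hV, Finset.mem_filter, Finset.mem_range] at h4'
      rw [Finset.mem_coe, Finset.mem_product, Finset.mem_filter, Finset.mem_Ioc]
      exact ⟨⟨⟨by simp only; omega, by simp only; omega⟩, h6⟩, h3⟩
    · intro p hp q hq heq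
      rw [Finset.mem_coe, Finset.mem_filter] at hp hq
      have h3 := hp.2.1
      have h4 := hq.2.1
      simp only [Prod.mk.injEq] at heq
      refine Prod.ext heq.2 ?_
      omega
  set T : ℕ := #{m ∈ Ioc 0 M | It a b c m} with hT
  set n : ℕ := #V with hn
  have h3 : ((#{p ∈ V ×ˢ V | p.1 < p.2 ∧ It a b c (p.2 - p.1)} : ℕ) : ℝ) ≤ (T : ℝ) * n := by exact_mod_cast h2
  have hn0 : (0 : ℝ) < n := by
    have : 0 < n := by omega
    exact_mod_cast this
  have hM0 : (0 : ℝ) < M := by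
    have : 0 < M := by omega
    exact_mod_cast this
  have hnM : (n : ℝ) ≤ M := by exact_mod_cast hVM
  have h4 : (n : ℝ) ^ (2 - δ) ≤ n * (M * (M : ℝ) ^ (-δ)) := by
    have e1 : (n : ℝ) ^ (2 - δ) = n * (n : ℝ) ^ (1 - δ) := by
      have e0 := Real.rpow_add hn0 1 (1 - δ)
      rw [Real.rpow_one] at e0
      rw [← e0]
      congr 1
      ring
    have e2 : (M : ℝ) * (M : ℝ) ^ (-δ) = (M : ℝ) ^ (1 - δ) := by
      have e0 := Real.rpow_add hM0 1 (-δ)
      rw [Real.rpow_one] at e0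
      rw [← e0]
      congr 1
    rw [e1, e2]
    exact mul_le_mul_of_nonneg_left (Real.rpow_le_rpow hn0.le hnM (by linarith)) hn0.le
  have h5 := hM₁ M hM1
  have h6 : (3 / 2 * C + 1) * (n : ℝ) ^ (2 - δ) ≤ n * (M * (1 / 45)) := by
    calc (3 / 2 * C + 1) * (n : ℝ) ^ (2 - δ) ≤ (3 / 2 * C + 1) * (n * (M * (M : ℝ) ^ (-δ))) :=
          mul_le_mul_of_nonneg_left h4 (by positivity)
      _ = n * (M * ((3 / 2 * C + 1) * (M : ℝ) ^ (-δ))) := by ring
      _ ≤ n * (M * (1 / 45)) := by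
          refine mul_le_mul_of_nonneg_left ?_ hn0.le
          exact mul_le_mul_of_nonneg_left h5.le hM0.le
  have h7 : (2 * M : ℝ) ≤ 3 * n := by exact_mod_cast hVc
  have h8 : (n : ℝ) * (1 / 3 * n - M / 45) ≤ n * (2 * T) := by nlinarith
  have h9 := le_of_mul_le_mul_left h8 hn0
  linarith

end Pool.Agent.EC9
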