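import Pool.Agent.helper34.IT.ITG

/-! Exponent sets: for EVERY case `T` of Q1 (constants independent of `T`) almost all quadruples of exponents (with the condition modulo 3 if `T` is a translation
modulo 3) contain two whose difference is a true iterate. -/

set_option autoImplicit false

namespace Pool.Agent.EC9

open Finset Pool.Agent.AT Pool.Agent.IT

open Classical in
/-- quadruples of exponents without a true difference are rare; `τ`: no condition modulo 3 is needed -/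
def QE (C δ : ℝ) (τ : Prop) (P : ℕ → Prop) : Prop := ∀ (F : Fin 4 → Finset ℕ) (L : ℕ), 1 ≤ L → (∀ i, L ≤ #(F i)) →
  (#{e ∈ Fintype.piFinset F | (τ ∨ ∃ r : ℤ, ∀ i, ¬ (3 : ℤ) ∣ (e i : ℤ) - r) ∧ ∀ i j : Fin 4, e i < e j → ¬ P (e j - e i)} : ℝ) ≤
    C * (∏ i, (#(F i) : ℝ)) * (L : ℝ) ^ (-δ)

/-- no condition modulo 3 is needed for the case `(a, b, c)` -/
def Fr (a b : ℕ) (c : ℤ) : Prop := (3 : ℤ) ∣ a * b * c ∨ ¬ (3 : ℤ) ∣ (a : ℤ) - b

theorem EQ_orb (a b E : ℕ) (c : ℤ) (h : ℕ → ℤ) (hh : ∀ i < E, (a : ℤ) * h (i + 1) = b * h i + c) (e m : ℕ) (hem : e + m ≤ E) :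
    (a : ℤ) ^ m * h (e + m) = (b : ℤ) ^ m * h e + c * br a b m := by
  induction m with
  | zero => simp [br]
  | succ m ih =>
    have h1 := ih (by omega)
    have h2 := hh (e + m) (by omega)
    have h3 : ((br a b (m + 1) : ℕ) : ℤ) = b * br a b m + a ^ m := by
      rw [ITG_br_succ]
      push_cast
      ring
    rw [h3, ← Nat.add_assoc]
    calc (a : ℤ) ^ (m + 1) * h (e + m + 1) = a ^ m * (a * h (e + m + 1)) := by ring
      _ = a ^ m * (b * h (e + m) + c) := by rw [h2]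
      _ = b * (a ^ m * h (e + m)) + a ^ m * c := by ring
      _ = b * (b ^ m * h e + c * br a b m) + a ^ m * c := by rw [h1]
      _ = _ := by ring

theorem EQ_inj (a b E : ℕ) (c : ℤ) (h : ℕ → ℤ) (ha : 1 ≤ a) (hb : 1 ≤ b) (hc : c ≠ 0) (hh : ∀ i < E, (a : ℤ) * h (i + 1) = b * h i + c)
    (e e' : ℕ) (hlt : e < e') (he' : e' ≤ E) (h1 : a ^ (E - e) * b ^ e = a ^ (E - e') * b ^ e') (h2 : h e = h e') : False := by
  obtain ⟨m, hm, hm0⟩ : ∃ m, e' = e + m ∧ 0 < m := ⟨e' - e, by omega, by omega⟩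
  subst hm
  have h3 : E - e = E - (e + m) + m := by omega
  rw [h3, pow_add, pow_add] at h1
  have h4 : a ^ (E - (e + m)) * b ^ e * a ^ m = a ^ (E - (e + m)) * b ^ e * b ^ m := by
    linarith [h1, mul_assoc (a ^ (E - (e + m))) (a ^ m) (b ^ e)]
  have h5 : a ^ m = b ^ m := Nat.eq_of_mul_eq_mul_left (by positivity) h4
  have h6 := EQ_orb a b E c h hh e m he'
  rw [← h2] at h6
  have h7 : (a : ℤ) ^ m = (b : ℤ) ^ m := by exact_mod_cast h5
  rw [h7] at h6
  have h8 : c * ((br a b m : ℕ) : ℤ) = 0 := by linarith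
  have h9 := ITG_br_pos a b m ha hm0
  rcases mul_eq_zero.mp h8 with h10 | h10
  · exact hc h10
  · have : br a b m = 0 := by exact_mod_cast h10
    omega

theorem EQ_irr (f : ℕ × ℤ) : ¬ Pair f f := by
  intro h
  unfold Pair at h
  obtain ⟨-, -, h3, -⟩ := h
  apply h3
  rw [sub_self, Int.zero_ediv]

theorem EQ (hQ : QPc) (hORB : ORB_stmt) (hADO : ADO_stmt) (hPRI : PRI_stmt) :
    ∃ C δ : ℝ, 0 < C ∧ 0 < δ ∧ δ ≤ 1 ∧ ∀ (a b : ℕ) (c : ℤ), Ad a b c → QE C δ (Fr a b c) (It a b c) := by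
  classical
  obtain ⟨C, δ, hC, hδ, hδ1, hQ⟩ := hQ
  refine ⟨C, δ, hC, hδ, hδ1, fun a b c hc F L hL hF => ?_⟩
  have hc' := hc
  obtain ⟨ha, hb, hc0, hab, -⟩ := hc'
  obtain ⟨E, hE⟩ : ∃ E : ℕ, ∀ i, ∀ x ∈ F i, x ≤ E := by
    refine ⟨∑ i, ∑ x ∈ F i, x, fun i x hx => ?_⟩
    exact le_trans (Finset.single_le_sum (f := fun x => x) (fun _ _ => Nat.zero_le _) hx)
      (Finset.single_le_sum (f := fun i => ∑ x ∈ F i, x) (fun _ _ => Nat.zero_le _) (Finset.mem_univ i))
  obtain ⟨h, hh⟩ := hORB a b E c ha hb hab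
  obtain ⟨φ, hφ⟩ : ∃ φ : ℕ → ℕ × ℤ, ∀ e, φ e = (a ^ (E - e) * b ^ e, h e) := ⟨_, fun _ => rfl⟩
  have hinj : ∀ e ≤ E, ∀ e' ≤ E, φ e = φ e' → e = e' := by
    intro e he e' he' heq
    rw [hφ, hφ, Prod.mk.injEq] at heq
    rcases lt_trichotomy e e' with h1 | h1 | h1
    · exact (EQ_inj a b E c h ha hb hc0 hh e e' h1 he' heq.1 heq.2).elim
    · exact h1
    · exact (EQ_inj a b E c h ha hb hc0 hh e' e h1 he heq.1.symm heq.2.symm).elim
  have hcard : ∀ i, #((F i).image φ) = #(F i) := fun i =>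
    Finset.card_image_of_injOn (fun e he e' he' => hinj e (hE i e he) e' (hE i e' he'))
  have hq := hQ (fun i => (F i).image φ) L hL (fun i => by rw [hcard]; exact hF i) (by
    intro i f hf
    obtain ⟨e, -, rfl⟩ := Finset.mem_image.mp hf
    rw [hφ]
    positivity)
  simp only [hcard] at hq
  refine le_trans ?_ hq
  refine Nat.cast_le.mpr (Finset.card_le_card_of_injOn (fun e i => φ (e i)) ?_ ?_)
  · intro e he
    rw [Finset.mem_coe, Finset.mem_filter, Fintype.mem_piFinset] at he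
    obtain ⟨h1, h2, h3⟩ := he
    have hle : ∀ i, e i ≤ E := fun i => hE i _ (h1 i)
    rw [Finset.mem_coe, Finset.mem_filter, Fintype.mem_piFinset]
    refine ⟨fun i => Finset.mem_image_of_mem _ (h1 i), ?_, ?_⟩
    · have h4 := hADO a b E c e h hc hh hle (by
        rcases h2 with h2 | h2
        · rcases h2 with h2 | h2
          · exact Or.inl h2
          · exact Or.inr (Or.inl h2)
        · exact Or.inr (Or.inr h2))
      have h5 : (fun i => φ (e i)) = fun i => (a ^ (E - e i) * b ^ (e i), h (e i)) := by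
        funext i
        rw [hφ]
      change Adm (fun i => φ (e i))
      rw [h5]
      exact h4
    · have key : ∀ i j, e i < e j → ¬ Pair (φ (e j)) (φ (e i)) := by
        intro i j hij hp
        rw [hφ, hφ] at hp
        exact h3 i j hij (hPRI a b E c h (e i) (e j) ha hb hab hh hij (hle j) hp)
      intro i j _ hp
      change Pair (φ (e i)) (φ (e j)) at hp
      rcases lt_trichotomy (e i) (e j) with h4 | h4 | h4
      · exact key i j h4 (ITG_pair_symm _ _ hp)
      · rw [h4] at hp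
        exact EQ_irr _ hp
      · exact key j i h4 hp
  · intro e he e' he' heq
    rw [Finset.mem_coe, Finset.mem_filter, Fintype.mem_piFinset] at he he'
    funext i
    exact hinj _ (hE i _ (he.1 i)) _ (hE i _ (he'.1 i)) (congrFun heq i)

end Pool.Agent.EC9
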